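import Pool.Agent.W106.CW.Stm

/-! CW-CONT: joint continuity of a parametric integral -/

set_option autoImplicit false

open MeasureTheory Filter Topology

namespace Pool.Agent.W701.CW

open Pool.Agent.W106.CW

theorem parCont : ParCont := by
  intro f hf
  rintro ⟨s0, a0, b0⟩ ⟨-, ha0, hb0⟩
  simp only [Set.mem_Ioo] at ha0 hb0
  set l : ℝ := min a0 b0 / 2 with hl
  set r : ℝ := (max a0 b0 + 1) / 2 with hr
  have hmin : 0 < min a0 b0 := lt_min ha0.1 hb0.1
  have hmax : max a0 b0 < 1 := max_lt ha0.2 hb0.2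
  have hmm : min a0 b0 ≤ max a0 b0 := min_le_max
  have hl0 : 0 < l := by rw [hl]; linarith
  have hr1 : r < 1 := by rw [hr]; linarith
  have hla : l < a0 := by rw [hl]; linarith [min_le_left a0 b0]
  have hlb : l < b0 := by rw [hl]; linarith [min_le_right a0 b0]
  have har : a0 < r := by rw [hr]; linarith [le_max_left a0 b0]
  have hbr : b0 < r := by rw [hr]; linarith [le_max_right a0 b0]
  have hlr : l < r := hla.trans har
  let F : ℝ → ℝ → ℝ := fun s t => f s (max l (min r t))
  have hF : Continuous (Function.uncurry F) := by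
    have h1 : Continuous fun p : ℝ × ℝ => ((p.1, max l (min r p.2)) : ℝ × ℝ) := by fun_prop
    have h2 := hf.comp_continuous h1 (fun p => ⟨trivial, lt_of_lt_of_le hl0 (le_max_left _ _),
      max_lt (hlr.trans hr1) ((min_le_left _ _).trans_lt hr1)⟩)
    exact h2
  have hFs : ∀ s, Continuous (F s) := fun s => hF.comp (by fun_prop : Continuous fun t => (s, t))
  have hI : Continuous fun p : ℝ × ℝ × ℝ =>
      (∫ t in (0 : ℝ)..p.2.2, F p.1 t) - ∫ t in (0 : ℝ)..p.2.1, F p.1 t := by
    have hF' : Continuous (Function.uncurry fun (p : ℝ × ℝ × ℝ) (t : ℝ) => F p.1 t) :=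
      hF.comp (by fun_prop : Continuous fun q : (ℝ × ℝ × ℝ) × ℝ => (q.1.1, q.2))
    refine Continuous.sub ?_ ?_
    · exact intervalIntegral.continuous_parametric_intervalIntegral_of_continuous hF'
        (by fun_prop)
    · exact intervalIntegral.continuous_parametric_intervalIntegral_of_continuous hF'
        (by fun_prop)
  have hev : ∀ᶠ p : ℝ × ℝ × ℝ in 𝓝 (s0, a0, b0),
      (∫ t in (p.2.1)..(p.2.2), f p.1 t) =
        (∫ t in (0 : ℝ)..p.2.2, F p.1 t) - ∫ t in (0 : ℝ)..p.2.1, F p.1 t := by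
    have e1 : ∀ᶠ p : ℝ × ℝ × ℝ in 𝓝 (s0, a0, b0), p.2.1 ∈ Set.Ioo l r :=
      (by fun_prop : Continuous fun p : ℝ × ℝ × ℝ => p.2.1).continuousAt.eventually
        (isOpen_Ioo.mem_nhds ⟨hla, har⟩)
    have e2 : ∀ᶠ p : ℝ × ℝ × ℝ in 𝓝 (s0, a0, b0), p.2.2 ∈ Set.Ioo l r :=
      (by fun_prop : Continuous fun p : ℝ × ℝ × ℝ => p.2.2).continuousAt.eventually
        (isOpen_Ioo.mem_nhds ⟨hlb, hbr⟩)
    filter_upwards [e1, e2] with p h1 h2
    rw [intervalIntegral.integral_interval_sub_left ((hFs p.1).intervalIntegrable _ _)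
      ((hFs p.1).intervalIntegrable _ _)]
    refine intervalIntegral.integral_congr fun t ht => ?_
    have ht' : t ∈ Set.Ioo l r := by
      have := Set.uIcc_subset_Icc (Set.Ioo_subset_Icc_self h1) (Set.Ioo_subset_Icc_self h2)
      rcases Set.mem_uIcc.1 ht with h | h
      · exact ⟨h1.1.trans_le h.1, h.2.trans_lt h2.2⟩
      · exact ⟨h2.1.trans_le h.1, h.2.trans_lt h1.2⟩
    show f p.1 t = f p.1 (max l (min r t))
    rw [min_eq_right ht'.2.le, max_eq_right ht'.1.le]
  exact (hI.continuousAt.congr (hev.mono fun p hp => hp.symm)).continuousWithinAt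

end Pool.Agent.W701.CW
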